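import Mathlib
import Pool.Agent.Helper24.LiftGood

namespace Pool.Agent.Results.MP_bec8f7_co.NoInscribed

/-- For every dimension `d ≥ 4` there is a convex body in `ℝ^d` in whose boundary no
nondegenerate parallelotope has all its `2 ^ d` vertices. -/
theorem result : ∀ d : ℕ, 4 ≤ d → ∃ C : Set (EuclideanSpace ℝ (Fin d)),
    Convex ℝ C ∧ IsCompact C ∧ (interior C).Nonempty ∧
    ¬ ∃ (a : EuclideanSpace ℝ (Fin d)) (v : Fin d → EuclideanSpace ℝ (Fin d)),
        LinearIndependent ℝ v ∧ ∀ S : Finset (Fin d), a + ∑ i ∈ S, v i ∈ frontier C := by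
  intro d hd
  obtain ⟨ι, κ, i1, i2, u, α, v, β, hG⟩ := Pool.Agent.Helper24.exists_good d hd
  exact Pool.Agent.Helper24.reduction hG

end Pool.Agent.Results.MP_bec8f7_co.NoInscribed
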